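import Pool.Agent.H63.PU.Defs

/-!
# Targets of the modules (MP_6ed97a_co, upper bound for the pancake number)
-/

namespace Pool.Agent.H63.PU

open Pool.Agent.H53.PK

/-- admissible weights -/
structure Wts.Ok (W : Wts) : Prop where
  FB : W.F ≤ W.B
  BF : W.B ≤ 2 * W.F
  M1 : 1 ≤ W.M

/-- the edges inside the parts -/
def EdgeR (n : ℕ) (R : List (Item × List ℕ)) (v : ℕ) : Prop := ∃ x ∈ R, Edge n x.2 v

/-- PAIR: neighbours in a concatenation -/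
def T_PAIR : Prop :=
  (∀ (a b : ℕ) (l₁ l₂ : List ℕ), [a, b] <:+: l₁ ++ l₂ ↔
    [a, b] <:+: l₁ ∨ [a, b] <:+: l₂ ∨ (l₁.getLast? = some a ∧ l₂.head? = some b)) ∧
  (∀ (a b : ℕ) (l : List ℕ), [a, b] <:+: l.reverse ↔ [b, a] <:+: l)

/-- EDGE: edges of a concatenation and of a reversed list -/
def T_EDGE : Prop :=
  (∀ (n v : ℕ) (l₁ l₂ : List ℕ), Edge n (l₁ ++ l₂) v ↔ Edge n l₁ v ∨ Edge n l₂ v ∨
    (l₁.getLast? = some v ∧ l₂.head? = some (nx n v)) ∨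
    (l₁.getLast? = some (nx n v) ∧ l₂.head? = some v)) ∧
  (∀ (n v : ℕ) (l : List ℕ), Edge n l.reverse v ↔ Edge n l v) ∧
  (∀ (n v : ℕ) (l : List ℕ), Edge n l v → v ∈ l ∧ nx n v ∈ l)

/-- NX: arithmetic of the cyclic successor -/
def T_NX : Prop :=
  (∀ n v : ℕ, 1 ≤ v → v ≤ n → 1 ≤ nx n v ∧ nx n v ≤ n) ∧
  (∀ n u v : ℕ, 1 ≤ u → u ≤ n → 1 ≤ v → v ≤ n → nx n u = nx n v → u = v) ∧
  (∀ n v : ℕ, 1 ≤ v → v ≤ n → ∃ u, 1 ≤ u ∧ u ≤ n ∧ nx n u = v) ∧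
  (∀ n v : ℕ, 2 ≤ n → 1 ≤ v → v ≤ n → nx n v ≠ v) ∧
  (∀ n v : ℕ, 3 ≤ n → 1 ≤ v → v ≤ n → nx n (nx n v) ≠ v)

/-- PHIM: the potential is monotone in the set of edges -/
def T_PHIM : Prop := ∀ (W : Wts) (n : ℕ) (p q : ℕ → Prop), W.Ok → (∀ v, p v → q v) →
  phi W n q ≤ phi W n p

/-- PHIJ: the potential drops by `gain` when one edge is added -/
def T_PHIJ : Prop := ∀ (W : Wts) (n y : ℕ) (p : ℕ → Prop) (ka kb : Kd), W.Ok → 3 ≤ n →
  1 ≤ y → y ≤ n → ¬ p y → (ka ≠ .s → ∃ u, 1 ≤ u ∧ u ≤ n ∧ nx n u = y ∧ p u) →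
  (kb ≠ .s → p (nx n y)) →
  phi W n (fun v => p v ∨ v = y) + gain W ka kb ≤ phi W n p

/-- PHI0: easy bounds for the potential -/
def T_PHI0 : Prop := ∀ (W : Wts) (n : ℕ) (p : ℕ → Prop), W.Ok → 1 ≤ n →
  0 ≤ phi W n p ∧ phi W n p ≤ W.F * n ∧ phi W n p ≤ W.B * (missing n p).card

/-- PUT: the symbolic operation `put` on real lists. The token `x` lies directly above the list. -/
def T_PUT : Prop := ∀ (W : Wts) (n : ℕ) (val : ℕ → ℕ) (x : Item × List ℕ)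
  (R : List (Item × List ℕ)) (S : List (Item × List ℕ)), W.Ok → 3 ≤ n →
  (∀ e, 1 ≤ val e ∧ val e ≤ n) →
  ((S ++ x :: R).map Prod.snd).flatten.Perm (List.range' 1 n) →
  (∀ z ∈ S ++ x :: R, ItemR n val z.1 z.2) →
  ∃ R', R'.map Prod.fst = (put W x.1 (R.map Prod.fst)).1 ∧
    (R'.map Prod.snd).flatten = ((x :: R).map Prod.snd).flatten ∧
    (∀ z ∈ R', ItemR n val z.1 z.2) ∧
    phi W n (EdgeR n (S ++ R')) + (put W x.1 (R.map Prod.fst)).2 ≤
      phi W n (EdgeR n (S ++ x :: R))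

/-- FLIP: a symbolic flip is a real flip (or does nothing) -/
def T_FLIP : Prop := ∀ (W : Wts) (n : ℕ) (val : ℕ → ℕ) (k : ℕ) (R : List (Item × List ℕ)),
  W.Ok → 3 ≤ n → (∀ e, 1 ≤ val e ∧ val e ≤ n) →
  ((R.map Prod.snd).flatten).Perm (List.range' 1 n) → (∀ z ∈ R, ItemR n val z.1 z.2) →
  ∃ R', R'.map Prod.fst = (flipI W k (R.map Prod.fst)).1 ∧
    Reach n 1 (R.map Prod.snd).flatten (R'.map Prod.snd).flatten ∧
    (∀ z ∈ R', ItemR n val z.1 z.2) ∧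
    phi W n (EdgeR n R') + (flipI W k (R.map Prod.fst)).2 ≤ phi W n (EdgeR n R)

/-- RUN: a symbolic sequence of flips -/
def T_RUN : Prop := ∀ (W : Wts) (n : ℕ) (val : ℕ → ℕ) (ks : List ℕ)
  (R : List (Item × List ℕ)),
  W.Ok → 3 ≤ n → (∀ e, 1 ≤ val e ∧ val e ≤ n) →
  ((R.map Prod.snd).flatten).Perm (List.range' 1 n) → (∀ z ∈ R, ItemR n val z.1 z.2) →
  ∃ b, Reach n ks.length (R.map Prod.snd).flatten b ∧
    phi W n (Edge n b) + run W ks (R.map Prod.fst) 0 ≤ phi W n (EdgeR n R)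

/-- INIT: at the start all edges of the stack are inside the parts -/
def T_INIT : Prop := ∀ (n : ℕ) (a : List ℕ) (val : ℕ → ℕ) (R : List (Item × List ℕ)),
  a.Perm (List.range' 1 n) → RealW n a val R → ∀ v, Edge n a v → EdgeR n R v

/-- EXT: the block of `z` inside a closed part of the stack -/
def T_EXT : Prop := ∀ (n : ℕ) (P l Q : List ℕ) (z : ℕ), 3 ≤ n →
  (P ++ l ++ Q).Perm (List.range' 1 n) → Closed n (P ++ l ++ Q) l → z ∈ l →
  ∃ (g₁ Y g₂ : List ℕ) (k : Kd), l = g₁ ++ Y ++ g₂ ∧ z ∈ Y ∧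
    (∀ val : ℕ → ℕ, Tok n val k 0 0 Y) ∧ Closed n (P ++ l ++ Q) g₁ ∧
    Closed n (P ++ l ++ Q) Y ∧ Closed n (P ++ l ++ Q) g₂

/-- TOPB: queries of type `top` and `bot` -/
def T_TOPB : Prop := ∀ (n : ℕ) (a : List ℕ) (i : ℕ) (is : List Item) (l : List (List Item)),
  3 ≤ n → a.Perm (List.range' 1 n) → Real n a is →
  (answers (.top i) is = some l ∨ answers (.bot i) is = some l) → ∃ A ∈ l, Real n a A

/-- END: in a token of a stack, a value whose predecessor edge is missing is the lowest one, and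
a value whose edge is missing is the highest one -/
def T_END : Prop := ∀ (n : ℕ) (a : List ℕ) (val : ℕ → ℕ) (k : Kd) (lo hi : ℕ) (P Y Q : List ℕ)
  (y : ℕ), 3 ≤ n → a = P ++ Y ++ Q → a.Perm (List.range' 1 n) → 1 ≤ y → y ≤ n → ¬ Edge n a y →
  Tok n val k lo hi Y → ∀ val' : ℕ → ℕ, ∀ e : ℕ, val' e = y →
  (lo ≠ 0 → val' lo = val lo) → (hi ≠ 0 → val' hi = val hi) →
  (nx n y ∈ Y → Tok n val' k e hi Y) ∧ (y ∈ Y → Tok n val' k lo e Y)

/-- OUT: the outer edges of a token of a stack are missing -/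
def T_OUT : Prop := ∀ (n : ℕ) (a : List ℕ) (val : ℕ → ℕ) (k : Kd) (lo hi : ℕ) (P Y Q : List ℕ),
  3 ≤ n → a = P ++ Y ++ Q → a.Perm (List.range' 1 n) → Closed n a Y → Tok n val k lo hi Y →
  (∃ y, 1 ≤ y ∧ y ≤ n ∧ y ∈ Y ∧ ¬ Edge n a y ∧
    ∀ val' : ℕ → ℕ, ∀ e : ℕ, val' e = y → (lo ≠ 0 → val' lo = val lo) → Tok n val' k lo e Y) ∧
  (∃ y, 1 ≤ y ∧ y ≤ n ∧ nx n y ∈ Y ∧ ¬ Edge n a y ∧
    ∀ val' : ℕ → ℕ, ∀ e : ℕ, val' e = y → (hi ≠ 0 → val' hi = val hi) → Tok n val' k e hi Y)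

/-- LOCLO: find the value `nx n y` -/
def T_LOCLO : Prop := ∀ (n : ℕ) (val : ℕ → ℕ) (e : ℕ) (R : List (Item × List ℕ)) (a : List ℕ),
  3 ≤ n → a.Perm (List.range' 1 n) → RealW n a val R → e ≠ 0 → ¬ Edge n a (val e) →
  (∀ k lo hi l, (Item.tok k lo hi, l) ∈ R → lo ≠ 0 → val lo ≠ val e) →
  ∃ A ∈ locLo e (R.map Prod.fst), Real n a A

/-- LOCHI: find the value `y` -/
def T_LOCHI : Prop := ∀ (n : ℕ) (val : ℕ → ℕ) (e : ℕ) (R : List (Item × List ℕ)) (a : List ℕ),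
  3 ≤ n → a.Perm (List.range' 1 n) → RealW n a val R → e ≠ 0 → ¬ Edge n a (val e) →
  (∀ k lo hi l, (Item.tok k lo hi, l) ∈ R → hi ≠ 0 → val hi ≠ val e) →
  ∃ A ∈ locHi e (R.map Prod.fst), Real n a A

/-- QHI: queries of type `hi` -/
def T_QHI : Prop := ∀ (n : ℕ) (a : List ℕ) (i : ℕ) (is : List Item) (l : List (List Item)),
  3 ≤ n → a.Perm (List.range' 1 n) → Real n a is → answers (.hi i) is = some l →
  ∃ A ∈ l, Real n a A

/-- QLO: queries of type `lo` -/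
def T_QLO : Prop := ∀ (n : ℕ) (a : List ℕ) (i : ℕ) (is : List Item) (l : List (List Item)),
  3 ≤ n → a.Perm (List.range' 1 n) → Real n a is → answers (.lo i) is = some l →
  ∃ A ∈ l, Real n a A

/-- EMB: forgetting -/
def T_EMB : Prop := ∀ (n : ℕ) (a : List ℕ) (m sk : List ℕ) (ps as : List Item),
  emb m sk ps as = true → Real n a as → Real n a ps

/-- CONTRA: two adjacent tokens of a stack never fit -/
def T_CONTRA : Prop := ∀ (W : Wts) (n : ℕ) (a : List ℕ) (as : List Item), 3 ≤ n →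
  a.Perm (List.range' 1 n) → contra W as = true → Real n a as → False

/-- CYC: a closed cycle of tokens -/
def T_CYC : Prop := ∀ (n : ℕ) (a : List ℕ) (S : List ℕ) (as : List Item), 3 ≤ n →
  a.Perm (List.range' 1 n) → cyc S as = true → Real n a as →
  (missing n (Edge n a)).card ≤ as.length

/-- CHK: a checked certificate proves all its configurations -/
def T_CHK : Prop := ∀ (W : Wts) (c : Cert) (N : ℕ), W.Ok → (∀ i < N, checkOne W c i = true) →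
  ∀ i < N, Solved W (c i).1

/-- ROOT: the first token -/
def T_ROOT : Prop := ∀ (n : ℕ) (a : List ℕ), 3 ≤ n → a.Perm (List.range' 1 n) →
  ∃ k : Kd, Real n a [.tok k 0 0, .gap]

/-- RED: with two missing edges the potential can be decreased -/
def T_RED : Prop := ∀ (W : Wts) (n : ℕ) (a : List ℕ), W.Ok → W.B < 2 * W.F → 3 ≤ n →
  a.Perm (List.range' 1 n) →
  2 ≤ (missing n (Edge n a)).card →
  ∃ b, Reach n 10 a b ∧ phi W n (Edge n b) < phi W n (Edge n a)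

/-- FIN: a stack with at most one missing edge is sorted by at most four flips -/
def T_FIN : Prop := ∀ (n : ℕ) (a : List ℕ), 3 ≤ n → a.Perm (List.range' 1 n) →
  (missing n (Edge n a)).card ≤ 1 → Reach n 4 a (sortedStack n)

/-- ALL: the number of flips is at most the potential plus a constant -/
def T_ALL : Prop := ∀ W : Wts, W.Ok → W.B < 2 * W.F →
  (∀ k : Kd, Solved W [.tok k 0 0, .gap]) →
  ∃ C : ℕ, ∀ (n : ℕ) (a : List ℕ), 3 ≤ n → a.Perm (List.range' 1 n) →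
    ∃ m : ℕ, Reach n m a (sortedStack n) ∧ W.M * m ≤ W.F * n + C

/-- MAIN: the bound for the pancake number -/
def T_MAIN : Prop := ∀ W : Wts, W.Ok → W.B < 2 * W.F →
  (∀ k : Kd, Solved W [.tok k 0 0, .gap]) →
  ∃ C : ℕ, ∀ n : ℕ, W.M * f n ≤ W.F * n + C

end Pool.Agent.H63.PU
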