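import Pool.Agent.H63.PU.Ck3

/-!
# A version of the checker which the kernel evaluates faster
-/

namespace Pool.Agent.H63.PU.Fast

open Pool.Agent.H53.PK Pool.Agent.H63.PU

/-- turn the first `k` items of the first list over, on top of the second list -/
noncomputable def rf (k : ℕ) : List Item → List Item → List Item :=
  Nat.rec (motive := fun _ => List Item → List Item → List Item) (fun _ acc => acc)
    (fun _ ih l acc => List.rec (motive := fun _ => List Item) acc
      (fun y t _ => Item.rec (motive := fun _ => List Item) (ih t (.gap :: acc))
        (fun k a b => Kd.rec (motive := fun _ => List Item) (ih t (.tok .s a b :: acc))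
          (ih t (.tok .m a b :: acc)) (ih t (.tok .p a b :: acc)) k) y) l) k

lemma rf_eq (k : ℕ) : ∀ l acc : List Item,
    rf k l acc = (l.take k).foldl (fun acc y => y.flip :: acc) acc := by
  induction k with
  | zero => intro l acc; simp [rf]
  | succ k ih =>
    intro l acc
    cases l with
    | nil => simp [rf]
    | cons y t =>
      rw [List.take_succ_cons, List.foldl_cons, ← ih]
      cases y with
      | gap => rfl
      | tok k a b => cases k <;> rfl

/-- the list without its first `k` items -/
noncomputable def dropF (k : ℕ) : List Item → List Item :=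
  Nat.rec (motive := fun _ => List Item → List Item) (fun l => l)
    (fun _ ih l => List.rec (motive := fun _ => List Item) [] (fun _ t _ => ih t) l) k

lemma dropF_eq (k : ℕ) : ∀ l : List Item, dropF k l = l.drop k := by
  induction k with
  | zero => intro l; rfl
  | succ k ih =>
    intro l
    cases l with
    | nil => rfl
    | cons y t => exact ih t

/-- join a token of type `ku` to the token of type `kv` below it -/
noncomputable def jn (W : Wts) (ku kv : Kd) (lu hu lv hv : ℕ) (f : Item → ℕ → ℕ) (n : ℕ) : ℕ :=
  Kd.rec (motive := fun _ => ℕ)
    (Kd.rec (motive := fun _ => ℕ)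
      (bif Nat.beq hu lv then bif Nat.beq hu 0 then
        (bif Nat.beq lu hv then bif Nat.beq lu 0 then n else f (.tok .m lv hu) (2 * W.F - W.B)
          else n) else f (.tok .p lu hv) (2 * W.F - W.B)
        else bif Nat.beq lu hv then bif Nat.beq lu 0 then n else
          f (.tok .m lv hu) (2 * W.F - W.B) else n)
      (bif Nat.beq hu lv then bif Nat.beq hu 0 then n else f (.tok .p lu hv) W.F else n)
      (bif Nat.beq lu hv then bif Nat.beq lu 0 then n else f (.tok .m lv hu) W.F else n) kv)
    (Kd.rec (motive := fun _ => ℕ)
      (bif Nat.beq hu lv then bif Nat.beq hu 0 then n else f (.tok .p lu hv) W.F else n)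
      (bif Nat.beq hu lv then bif Nat.beq hu 0 then n else f (.tok .p lu hv) W.B else n)
      n kv)
    (Kd.rec (motive := fun _ => ℕ)
      (bif Nat.beq lu hv then bif Nat.beq lu 0 then n else f (.tok .m lv hu) W.F else n)
      n
      (bif Nat.beq lu hv then bif Nat.beq lu 0 then n else f (.tok .m lv hu) W.B else n) kv)
    ku

lemma jn_eq (W : Wts) (ku kv : Kd) (lu hu lv hv : ℕ) (f : Item → ℕ → ℕ) (n : ℕ) :
    jn W ku kv lu hu lv hv f n = match join W (.tok ku lu hu) (.tok kv lv hv) with
      | some (z, h) => f z h
      | none => n := by
  cases ku <;> cases kv <;> simp only [jn, join, notM, notP, gain] <;>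
    rcases Nat.beq hu lv with _ | _ <;> rcases Nat.beq hu 0 with _ | _ <;>
    rcases Nat.beq lu hv with _ | _ <;> rcases Nat.beq lu 0 with _ | _ <;> rfl

/-- as `run` -/
noncomputable def runF (W : Wts) (ks : List ℕ) : List Item → ℕ → ℕ :=
  List.rec (motive := fun _ => List Item → ℕ → ℕ) (fun _ g => g)
    (fun k _ ih is g => List.rec (motive := fun _ => ℕ) (ih [] g)
      (fun x l _ => List.rec (motive := fun _ => ℕ)
        (Item.rec (motive := fun _ => ℕ) (ih (rf k l [.gap]) g)
          (fun kx a b => Kd.rec (motive := fun _ => ℕ) (ih (rf k l [.tok .s a b]) g)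
            (ih (rf k l [.tok .m a b]) g) (ih (rf k l [.tok .p a b]) g) kx) x)
        (fun y r _ =>
          Item.rec (motive := fun _ => ℕ)
            (Item.rec (motive := fun _ => ℕ) (ih (rf k l (.gap :: r)) g)
              (fun ky a b => ih (rf k l (.gap :: .tok ky a b :: r)) g) y)
            (fun kx a b => Item.rec (motive := fun _ => ℕ)
              (Kd.rec (motive := fun _ => ℕ) (ih (rf k l (.tok .s a b :: .gap :: r)) g)
                (ih (rf k l (.tok .m a b :: .gap :: r)) g)
                (ih (rf k l (.tok .p a b :: .gap :: r)) g) kx)
              (fun ky c d => Kd.rec (motive := fun _ => ℕ)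
                (jn W .s ky a b c d (fun z h => ih (rf k l (z :: r)) (g + h))
                  (ih (rf k l (.tok .s a b :: .tok ky c d :: r)) g))
                (jn W .m ky a b c d (fun z h => ih (rf k l (z :: r)) (g + h))
                  (ih (rf k l (.tok .m a b :: .tok ky c d :: r)) g))
                (jn W .p ky a b c d (fun z h => ih (rf k l (z :: r)) (g + h))
                  (ih (rf k l (.tok .p a b :: .tok ky c d :: r)) g)) kx) y) x)
        (dropF k l)) is) ks

lemma runF_nil (W : Wts) (is : List Item) (g : ℕ) : runF W [] is g = g := rfl

lemma runF_cons_nil (W : Wts) (k : ℕ) (ks : List ℕ) (g : ℕ) :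
    runF W (k :: ks) [] g = runF W ks [] g := rfl

lemma put_none {W : Wts} {x y : Item} {l : List Item} (h : join W x y = none)
    (h2 : ¬ (x = .gap ∧ y = .gap)) : put W x (y :: l) = (x :: y :: l, 0) := by
  cases x with
  | gap => cases y with
    | gap => exact absurd ⟨rfl, rfl⟩ h2
    | tok k a b => simp [put, join]
  | tok k a b => cases y with
    | gap => simp [put, join]
    | tok k' a' b' => simp only [put, h]

lemma runF_eq (W : Wts) (ks : List ℕ) : ∀ (is : List Item) (g : ℕ),
    runF W ks is g = run W ks is g := by
  induction ks with
  | nil => intro is g; cases is <;> rfl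
  | cons k ks ih =>
    intro is g
    cases is with
    | nil =>
      rw [runF_cons_nil, ih]
      rfl
    | cons x l =>
      have key : ∀ (js : List Item) (h : ℕ), flipI W k (x :: l) = (js, h) →
          run W (k :: ks) (x :: l) g = run W ks js (g + h) := by
        intro js h hf
        simp only [run, hf]
      have hd := dropF_eq k l
      rcases hr : l.drop k with _ | ⟨y, r⟩
      · -- nothing below
        rw [hr] at hd
        have hp : put W x.flip (l.drop k) = ([x.flip], 0) := by rw [hr]; rfl
        have h1 : flipI W k (x :: l) = (rf k l [x.flip], 0) := by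
          rw [rf_eq]
          simp only [flipI, hp]
        rw [key _ _ h1, ← ih]
        change List.rec (motive := fun _ => ℕ) _ _ (dropF k l) = _
        rw [hd]
        cases x with
        | gap => rfl
        | tok kx a b => cases kx <;> rfl
      · rw [hr] at hd
        change List.rec (motive := fun _ => ℕ) _ _ (dropF k l) = _
        rw [hd]
        have h1 : ∀ js h, put W x.flip (y :: r) = (js, h) →
            flipI W k (x :: l) = (rf k l js, h) := by
          intro js h hp
          rw [rf_eq]
          simp only [flipI, hr, hp]
        cases x with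
        | gap =>
          cases y with
          | gap =>
            rw [key _ _ (h1 (.gap :: r) 0 rfl), ← ih]
            rfl
          | tok ky c d =>
            rw [key _ _ (h1 (.gap :: .tok ky c d :: r) 0 rfl), ← ih]
            rfl
        | tok kx a b =>
          cases y with
          | gap =>
            rw [key _ _ (h1 (.tok kx.flip a b :: .gap :: r) 0 rfl), ← ih]
            cases kx <;> rfl
          | tok ky c d =>
            have h2 : (match join W (.tok kx.flip a b) (.tok ky c d) with
                | some (z, h) => runF W ks (rf k l (z :: r)) (g + h)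
                | none => runF W ks (rf k l (.tok kx.flip a b :: .tok ky c d :: r)) g) =
                run W (k :: ks) (.tok kx a b :: l) g := by
              rcases hj : join W (.tok kx.flip a b) (.tok ky c d) with _ | ⟨z, h⟩
              · rw [key _ _ (h1 (.tok kx.flip a b :: .tok ky c d :: r) 0
                  (put_none hj (by simp))), ← ih]
                rfl
              · have hp : put W (Item.flip (.tok kx a b)) (.tok ky c d :: r) = (z :: r, h) := by
                  simp only [Item.flip, put, hj]
                rw [key _ _ (h1 (z :: r) h hp), ← ih]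
            rw [← h2, ← jn_eq]
            cases kx <;> rfl

/-- as `Ck3.leafOk` -/
noncomputable def leafOk (W : Wts) (as : List Item) (ks : List ℕ) : Bool :=
  List.rec (motive := fun _ => Bool) false
    (fun _ _ _ => Nat.ble (W.M * ks.length) (runF W ks as 0)) ks

lemma leafOk_eq (W : Wts) (as : List Item) (ks : List ℕ) :
    leafOk W as ks = Ck3.leafOk W as ks := by
  cases ks with
  | nil => rfl
  | cons k ks =>
    simp only [leafOk, Ck3.leafOk, runF_eq, List.length_cons]

/-- as `Ck3.checkRefs` -/
noncomputable def checkRefs (W : Wts) (c : Ck3.Cert) (i : ℕ) :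
    List (List Item) → List Ck3.Rf → Bool
  | [], [] => true
  | a :: l, .l ks :: rs => leafOk W a ks && checkRefs W c i l rs
  | a :: l, r :: rs => Ck3.checkRef W c i a r && checkRefs W c i l rs
  | _, _ => false

lemma checkRefs_eq (W : Wts) (c : Ck3.Cert) (i : ℕ) : ∀ (l : List (List Item))
    (rs : List Ck3.Rf), checkRefs W c i l rs = Ck3.checkRefs W c i l rs
  | [], [] => by simp [checkRefs, Ck3.checkRefs]
  | [], r :: rs => by simp [checkRefs, Ck3.checkRefs]
  | a :: l, [] => by simp [checkRefs, Ck3.checkRefs]
  | a :: l, r :: rs => by
    have ih := checkRefs_eq W c i l rs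
    cases r <;> simp [checkRefs, Ck3.checkRefs, Ck3.checkRef, leafOk_eq, ih]

/-- as `Ck3.checkOne` -/
noncomputable def checkOne (W : Wts) (c : Ck3.Cert) (i : ℕ) : Bool :=
  match answers (c i).2.1 (c i).1 with
  | some l => checkRefs W c i l (c i).2.2
  | none => false

lemma checkOne_eq (W : Wts) (c : Ck3.Cert) (i : ℕ) : checkOne W c i = Ck3.checkOne W c i := by
  unfold checkOne Ck3.checkOne
  rcases answers (c i).2.1 (c i).1 with _ | l
  · rfl
  · exact checkRefs_eq W c i l _

end Pool.Agent.H63.PU.Fast
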