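import Pool.Agent.H63.PU.Targets

/-!
# Short names for the certificate data
-/

namespace Pool.Agent.H63.PU.Short

open Pool.Agent.H63.PU

abbrev g : Item := .gap
abbrev s (a b : ℕ) : Item := .tok .s a b
abbrev p (a b : ℕ) : Item := .tok .p a b
abbrev m (a b : ℕ) : Item := .tok .m a b

/-- `f i`, …, `f (i + k - 1)` -/
def allFrom (f : ℕ → Bool) : ℕ → ℕ → Bool
  | 0, _ => true
  | k + 1, i => f i && allFrom f k (i + 1)

theorem allFrom_spec {f : ℕ → Bool} {k i : ℕ} (h : allFrom f k i = true) {j : ℕ}
    (h1 : i ≤ j) (h2 : j < i + k) : f j = true := by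
  induction k generalizing i with
  | zero => omega
  | succ k ih =>
    simp only [allFrom, Bool.and_eq_true] at h
    rcases Nat.eq_or_lt_of_le h1 with h3 | h3
    · subst h3; exact h.1
    · exact ih h.2 h3 (by omega)

end Pool.Agent.H63.PU.Short
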