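import Pool.Agent.H63.PU.Mir
import Pool.Agent.H63.PU.Short

/-!
# A shorter format of certificates: flips are given at the place where they are used, and
configurations may be reflected
-/

namespace Pool.Agent.H63.PU.Ck3

open Pool.Agent.H53.PK Pool.Agent.H63.PU

/-- why a configuration is good: it is impossible, or a sequence of flips, or an earlier entry
(possibly reflected) -/
inductive Rf
  | c
  | y (S : List ℕ)
  | l (ks : List ℕ)
  | r (j : ℕ) (m sk : List ℕ)
  | R (j : ℕ) (m sk : List ℕ)

/-- the certificate: entry `i` is a configuration with a query and the answers -/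
abbrev Cert := ℕ → List Item × Qry × List Rf

/-- the flips `ks` (numbers of items) are good -/
def leafOk (W : Wts) (as : List Item) : List ℕ → Bool
  | [] => false
  | k :: ks => Nat.ble (W.M * (ks.length + 1)) (run W (k :: ks) as 0)

def checkRef (W : Wts) (c : Cert) (i : ℕ) (as : List Item) : Rf → Bool
  | .c => contra W as
  | .y S => Nat.ble as.length 40 && cyc S as
  | .l ks => leafOk W as ks
  | .r j m sk => Nat.ble (j + 1) i && emb (0 :: m) sk (c j).1 as
  | .R j m sk => Nat.ble (j + 1) i && emb (0 :: m) sk ((c j).1.map Mir.mirI) as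

def checkRefs (W : Wts) (c : Cert) (i : ℕ) : List (List Item) → List Rf → Bool
  | [], [] => true
  | a :: l, r :: rs => checkRef W c i a r && checkRefs W c i l rs
  | _, _ => false

def checkOne (W : Wts) (c : Cert) (i : ℕ) : Bool :=
  match answers (c i).2.1 (c i).1 with
  | some l => checkRefs W c i l (c i).2.2
  | none => false

lemma refs_mem (W : Wts) (c : Cert) (i : ℕ) : ∀ (l : List (List Item)) (rs : List Rf),
    checkRefs W c i l rs = true → ∀ A ∈ l, ∃ r, checkRef W c i A r = true
  | [], _, _, A, hA => by simp at hA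
  | a :: l, [], h, _, _ => by simp [checkRefs] at h
  | a :: l, r :: rs, h, A, hA => by
    simp only [checkRefs, Bool.and_eq_true] at h
    rcases List.mem_cons.mp hA with rfl | hA
    · exact ⟨r, h.1⟩
    · exact refs_mem W c i l rs h.2 A hA

lemma leaf_good {W : Wts} (hW : W.Ok) {n : ℕ} {a : List ℕ} (hn : 3 ≤ n)
    (ha : a.Perm (List.range' 1 n)) {as : List Item} (hR : Real n a as) {ks : List ℕ}
    (h : leafOk W as ks = true) : Good W n a := by
  cases ks with
  | nil => simp [leafOk] at h
  | cons k ks =>
    simp only [leafOk, Nat.ble_eq] at h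
    obtain ⟨val, R, hRi, hw⟩ := hR
    obtain ⟨b, hb1, hb2⟩ := m_run W n val (k :: ks) R hW hn hw.val1
      (by rw [hw.flat]; exact ha) hw.item
    rw [hw.flat] at hb1
    rw [hRi] at hb2
    have h3 := Pool.Agent.H2.PU.phim W n (Edge n a) (EdgeR n R) hW (m_init n a val R ha hw)
    have h4 : (W.M : ℤ) * ((k :: ks).length : ℤ) ≤ (run W (k :: ks) as 0 : ℤ) := by
      rw [List.length_cons]
      exact_mod_cast h
    have h5 : (0 : ℤ) < (W.M : ℤ) * ((k :: ks).length : ℤ) := by
      have := hW.M1
      rw [List.length_cons]
      positivity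
    exact ⟨(k :: ks).length, b, hb1, by linarith, by linarith⟩

theorem chk (W : Wts) (c : Cert) (N : ℕ) (hW : W.Ok) (hc : ∀ i < N, checkOne W c i = true) :
    ∀ i < N, Solved W (c i).1 := by
  intro i
  induction i using Nat.strong_induction_on with
  | _ i ih =>
    intro hi n a hn ha hcard hR
    have h := hc i hi
    unfold checkOne at h
    have hA : ∃ l, answers (c i).2.1 (c i).1 = some l ∧
        checkRefs W c i l (c i).2.2 = true := by
      split at h
      · rename_i l hl
        exact ⟨l, hl, h⟩
      · simp at h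
    obtain ⟨l, hl, hrefs⟩ := hA
    have hex : ∃ A ∈ l, Real n a A := by
      generalize (c i).2.1 = q at hl
      cases q with
      | hi j => exact m_qhi n a j _ l hn ha hR hl
      | lo j => exact m_qlo n a j _ l hn ha hR hl
      | top j => exact m_topb n a j _ l hn ha hR (Or.inl hl)
      | bot j => exact m_topb n a j _ l hn ha hR (Or.inr hl)
    obtain ⟨A, hAl, hAR⟩ := hex
    obtain ⟨r, hr⟩ := refs_mem W c i l _ hrefs A hAl
    cases r with
    | c => exact (m_contra W n a A hn ha hr hAR).elim
    | y S =>
      simp only [checkRef, Bool.and_eq_true, Nat.ble_eq] at hr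
      have := Pool.Agent.H50.PU.Cyc.cycM n a S A hn ha hr.2 hAR
      omega
    | l ks => exact leaf_good hW hn ha hAR hr
    | r j m sk =>
      simp only [checkRef, Bool.and_eq_true, Nat.ble_eq] at hr
      exact ih j (by omega) (by omega) n a hn ha hcard
        (Pool.Agent.H50.PU.Emb.embM n a (0 :: m) sk _ A hr.2 hAR)
    | R j m sk =>
      simp only [checkRef, Bool.and_eq_true, Nat.ble_eq] at hr
      exact Mir.solved_mir (ih j (by omega) (by omega)) n a hn ha hcard
        (Pool.Agent.H50.PU.Emb.embM n a (0 :: m) sk _ A hr.2 hAR)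

end Pool.Agent.H63.PU.Ck3
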