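import Pool.Agent.H53.PK.Target

/-!
# Upper bounds for the pancake number (MP_6ed97a_co): definitions and the certificate checker

A stack is a list of the values `1, …, n`; values are compared cyclically (`nx n n = 1`).
A *configuration* is a list of items: known tokens (maximal blocks of the stack, with their type
and with labels for the known value neighbours) and gaps (arbitrary, possibly empty).
-/

namespace Pool.Agent.H63.PU

open Pool.Agent.H53.PK

/-! ### Real stacks -/

/-- cyclic successor on `1, …, n` -/
def nx (n v : ℕ) : ℕ := if v = n then 1 else v + 1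

/-- the values `v` and `nx n v` are neighbours in `l` -/
def Edge (n : ℕ) (l : List ℕ) (v : ℕ) : Prop :=
  [v, nx n v] <:+: l ∨ [nx n v, v] <:+: l

open Classical in
/-- the missing edges of a set of edges -/
noncomputable def missing (n : ℕ) (p : ℕ → Prop) : Finset ℕ :=
  (Finset.Icc 1 n).filter (fun v => ¬ p v)

open Classical in
/-- the `v` such that both edges of the value `nx n v` are missing (`nx n v` is a singleton) -/
noncomputable def iso (n : ℕ) (p : ℕ → Prop) : Finset ℕ :=
  (Finset.Icc 1 n).filter (fun v => ¬ p v ∧ ¬ p (nx n v))

/-- The weights: `F` per singleton, `B` per block, `M` per flip. -/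
structure Wts where
  F : ℕ
  B : ℕ
  M : ℕ

/-- the potential of a set of edges: `F` per singleton and `B` per block -/
noncomputable def phi (W : Wts) (n : ℕ) (p : ℕ → Prop) : ℤ :=
  W.B * (missing n p).card - (W.B - W.F) * (iso n p).card

/-- `b` is reached from `a` by at most `m` prefix reversals -/
def Reach (n m : ℕ) (a b : List ℕ) : Prop :=
  ∃ ks : List ℕ, ks.length ≤ m ∧ (∀ k ∈ ks, 1 ≤ k ∧ k ≤ n) ∧
    ks.foldl (fun s k => prefixReversal k s) a = b

/-- a good sequence of flips exists -/
def Good (W : Wts) (n : ℕ) (a : List ℕ) : Prop :=
  ∃ (m : ℕ) (b : List ℕ), Reach n m a b ∧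
    W.M * m + phi W n (Edge n b) ≤ phi W n (Edge n a) ∧ phi W n (Edge n b) < phi W n (Edge n a)

/-! ### Configurations -/

/-- type of a token: singleton, increasing block, decreasing block -/
inductive Kd | s | p | m
deriving DecidableEq

/-- An item of a configuration. `lo`, `hi` are labels of the known neighbours of the lowest and of
the highest value of the token (`0`: unknown). -/
inductive Item
  | gap
  | tok (k : Kd) (lo hi : ℕ)

/-- an increasing run of length at least two -/
def Up (n : ℕ) (l : List ℕ) : Prop := l.IsChain (fun a b => b = nx n a) ∧ 2 ≤ l.length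

/-- The list `l` is a token of the given type; `val e` is the value below the edge with label `e`,
`nx n (val e)` the value above it. -/
def Tok (n : ℕ) (val : ℕ → ℕ) : Kd → ℕ → ℕ → List ℕ → Prop
  | .s, lo, hi, l => ∃ v, l = [v] ∧ (lo ≠ 0 → v = nx n (val lo)) ∧ (hi ≠ 0 → v = val hi)
  | .p, lo, hi, l => Up n l ∧ (lo ≠ 0 → l.head? = some (nx n (val lo))) ∧
      (hi ≠ 0 → l.getLast? = some (val hi))
  | .m, lo, hi, l => Up n l.reverse ∧ (lo ≠ 0 → l.getLast? = some (nx n (val lo))) ∧
      (hi ≠ 0 → l.head? = some (val hi))

/-- meaning of an item -/
def ItemR (n : ℕ) (val : ℕ → ℕ) : Item → List ℕ → Prop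
  | .gap, _ => True
  | .tok k lo hi, l => Tok n val k lo hi l

/-- a set of values which is a union of connected components of the stack `a` -/
def Closed (n : ℕ) (a l : List ℕ) : Prop := ∀ v, Edge n a v → (v ∈ l ↔ nx n v ∈ l)

/-- the stack `a` has the configuration `is`, the parts being given by `R` -/
structure RealW (n : ℕ) (a : List ℕ) (val : ℕ → ℕ) (R : List (Item × List ℕ)) : Prop where
  val1 : ∀ e, 1 ≤ val e ∧ val e ≤ n
  flat : (R.map Prod.snd).flatten = a
  closed : ∀ x ∈ R, Closed n a x.2
  item : ∀ x ∈ R, ItemR n val x.1 x.2

/-- the stack `a` has the configuration `is` -/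
def Real (n : ℕ) (a : List ℕ) (is : List Item) : Prop :=
  ∃ (val : ℕ → ℕ) (R : List (Item × List ℕ)), R.map Prod.fst = is ∧ RealW n a val R

/-- every large stack with the configuration `is` has a good sequence of flips -/
def Solved (W : Wts) (is : List Item) : Prop :=
  ∀ (n : ℕ) (a : List ℕ), 3 ≤ n → a.Perm (List.range' 1 n) →
    40 < (missing n (Edge n a)).card → Real n a is → Good W n a

/-! ### Symbolic flips -/

def Kd.flip : Kd → Kd
  | .s => .s
  | .p => .m
  | .m => .p

def Item.flip : Item → Item
  | .gap => .gap
  | .tok k lo hi => .tok k.flip lo hi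

/-- gain of the potential when two tokens are joined -/
def gain (W : Wts) : Kd → Kd → ℕ
  | .s, .s => 2 * W.F - W.B
  | .s, _ => W.F
  | _, .s => W.F
  | _, _ => W.B

def notM : Kd → Bool
  | .m => false
  | _ => true

def notP : Kd → Bool
  | .p => false
  | _ => true

/-- the first token is directly above the second one: join them if their values fit -/
def join (W : Wts) : Item → Item → Option (Item × ℕ)
  | .tok ku lu hu, .tok kv lv hv =>
    bif notM ku && (notM kv && (!(Nat.beq hu 0) && Nat.beq hu lv)) then
      some (.tok .p lu hv, gain W ku kv)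
    else bif notP ku && (notP kv && (!(Nat.beq lu 0) && Nat.beq lu hv)) then
      some (.tok .m lv hu, gain W ku kv)
    else none
  | _, _ => none

/-- put the item `x` on top of the list -/
def put (W : Wts) (x : Item) : List Item → List Item × ℕ
  | [] => ([x], 0)
  | y :: l =>
    match x, y with
    | .gap, .gap => (.gap :: l, 0)
    | _, _ => match join W x y with
      | some (z, g) => (z :: l, g)
      | none => (x :: y :: l, 0)

/-- flip the first `k + 1` items -/
def flipI (W : Wts) (k : ℕ) : List Item → List Item × ℕ
  | [] => ([], 0)
  | x :: l =>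
    let r := put W x.flip (l.drop k)
    ((l.take k).foldl (fun acc y => y.flip :: acc) r.1, r.2)

/-- total gain of a sequence of flips -/
def run (W : Wts) : List ℕ → List Item → ℕ → ℕ
  | [], _, g => g
  | k :: ks, is, g => match flipI W k is with
    | (js, h) => run W ks js (g + h)

/-! ### Queries -/

/-- all ways to give the label `e` to the lower side of a token -/
def locLo (e : ℕ) : List Item → List (List Item)
  | [] => []
  | .gap :: l =>
    (.gap :: .tok .s e 0 :: .gap :: l) :: (.gap :: .tok .p e 0 :: .gap :: l) ::
      (.gap :: .tok .m e 0 :: .gap :: l) :: (locLo e l).map (fun t => .gap :: t)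
  | .tok k lo hi :: l =>
    bif Nat.beq lo 0 then
      (.tok k e hi :: l) :: (locLo e l).map (fun t => .tok k lo hi :: t)
    else (locLo e l).map (fun t => .tok k lo hi :: t)

/-- all ways to give the label `e` to the upper side of a token -/
def locHi (e : ℕ) : List Item → List (List Item)
  | [] => []
  | .gap :: l =>
    (.gap :: .tok .s 0 e :: .gap :: l) :: (.gap :: .tok .p 0 e :: .gap :: l) ::
      (.gap :: .tok .m 0 e :: .gap :: l) :: (locHi e l).map (fun t => .gap :: t)
  | .tok k lo hi :: l =>
    bif Nat.beq hi 0 then
      (.tok k lo e :: l) :: (locHi e l).map (fun t => .tok k lo hi :: t)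
    else (locHi e l).map (fun t => .tok k lo hi :: t)

/-- a label which is larger than all labels -/
def fresh : List Item → ℕ
  | [] => 1
  | .gap :: l => fresh l
  | .tok _ lo hi :: l => Nat.max (Nat.max (lo + 1) (hi + 1)) (fresh l)

def hasHi (e : ℕ) : List Item → Bool
  | [] => false
  | .gap :: l => hasHi e l
  | .tok _ _ hi :: l => Nat.beq hi e || hasHi e l

def hasLo (e : ℕ) : List Item → Bool
  | [] => false
  | .gap :: l => hasLo e l
  | .tok _ lo _ :: l => Nat.beq lo e || hasLo e l

/-- every label on a lower side is on an upper side -/
def exclLo (is : List Item) : List Item → Bool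
  | [] => true
  | .gap :: l => exclLo is l
  | .tok _ lo _ :: l => (Nat.beq lo 0 || hasHi lo is) && exclLo is l

/-- every label on an upper side is on a lower side -/
def exclHi (is : List Item) : List Item → Bool
  | [] => true
  | .gap :: l => exclHi is l
  | .tok _ _ hi :: l => (Nat.beq hi 0 || hasLo hi is) && exclHi is l

inductive Qry
  /-- where is the upper neighbour of the token at index `i`? -/
  | hi (i : ℕ)
  /-- where is the lower neighbour of the token at index `i`? -/
  | lo (i : ℕ)
  /-- what is on top of the gap at index `i`? -/
  | top (i : ℕ)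
  /-- what is at the bottom of the gap at index `i`? -/
  | bot (i : ℕ)

/-- the possible answers of a query -/
def answers : Qry → List Item → Option (List (List Item))
  | .hi i, is => match is[i]? with
    | some (.tok k lo 0) =>
      bif exclLo is is then some (locLo (fresh is) (is.set i (.tok k lo (fresh is)))) else none
    | _ => none
  | .lo i, is => match is[i]? with
    | some (.tok k 0 hi) =>
      bif exclHi is is then some (locHi (fresh is) (is.set i (.tok k (fresh is) hi))) else none
    | _ => none
  | .top i, is => match is[i]? with
    | some .gap => some [is.take i ++ is.drop (i + 1),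
        is.take i ++ .tok .s 0 0 :: .gap :: is.drop (i + 1),
        is.take i ++ .tok .p 0 0 :: .gap :: is.drop (i + 1),
        is.take i ++ .tok .m 0 0 :: .gap :: is.drop (i + 1)]
    | _ => none
  | .bot i, is => match is[i]? with
    | some .gap => some [is.take i ++ is.drop (i + 1),
        is.take i ++ .gap :: .tok .s 0 0 :: is.drop (i + 1),
        is.take i ++ .gap :: .tok .p 0 0 :: is.drop (i + 1),
        is.take i ++ .gap :: .tok .m 0 0 :: is.drop (i + 1)]
    | _ => none

/-! ### References -/

/-- two adjacent tokens fit together: impossible -/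
def contra (W : Wts) : List Item → Bool
  | x :: y :: l => (join W x y).isSome || contra W (y :: l)
  | _ => false

/-- the tokens at the indices `S` form a union of cycles: impossible for large stacks -/
def cyc (S : List ℕ) (is : List Item) : Bool :=
  !S.isEmpty && S.all (fun i => match is[i]? with
    | some (.tok _ _ hi) => !(Nat.beq hi 0) && S.any (fun j => match is[j]? with
      | some (.tok _ lo _) => Nat.beq lo hi
      | _ => false)
    | _ => false)

def Kd.beq : Kd → Kd → Bool
  | .s, .s => true
  | .p, .p => true
  | .m, .m => true
  | _, _ => false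

def okL (m : List ℕ) (a b : ℕ) : Bool :=
  Nat.beq a 0 || (!(Nat.beq b 0) && Nat.beq (m.getD a 0) b)

/-- The configuration `ps` arises from `as` by forgetting; `m` translates the labels, `sk` gives
the number of items forgotten in each gap. -/
def emb (m : List ℕ) : List ℕ → List Item → List Item → Bool
  | _, [], [] => true
  | s :: sk, .gap :: ps, as => Nat.ble s as.length && emb m sk ps (as.drop s)
  | sk, .tok k lo hi :: ps, .tok k' lo' hi' :: as =>
    Kd.beq k k' && (okL m lo lo' && (okL m hi hi' && emb m sk ps as))
  | _, _, _ => false

inductive Ref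
  | contra
  | cyc (S : List ℕ)
  | ref (j : ℕ) (m sk : List ℕ)

inductive Pf
  | leaf (ks : List ℕ)
  | inner (q : Qry) (rs : List Ref)

/-- the certificate: entry `i` is a configuration with its proof -/
abbrev Cert := ℕ → List Item × Pf

def checkRef (W : Wts) (c : Cert) (i : ℕ) (as : List Item) : Ref → Bool
  | .contra => contra W as
  | .cyc S => Nat.ble as.length 40 && cyc S as
  | .ref j m sk => Nat.ble (j + 1) i && emb m sk (c j).1 as

def checkRefs (W : Wts) (c : Cert) (i : ℕ) : List (List Item) → List Ref → Bool
  | [], [] => true
  | a :: l, r :: rs => checkRef W c i a r && checkRefs W c i l rs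
  | _, _ => false

def checkPf (W : Wts) (c : Cert) (i : ℕ) (is : List Item) : Pf → Bool
  | .leaf [] => false
  | .leaf (k :: ks) => Nat.ble (W.M * (ks.length + 1)) (run W (k :: ks) is 0)
  | .inner q rs => match answers q is with
    | some l => checkRefs W c i l rs
    | none => false

def checkOne (W : Wts) (c : Cert) (i : ℕ) : Bool := checkPf W c i (c i).1 (c i).2

end Pool.Agent.H63.PU
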