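import Pool.Agent.H63.PU.Targets

/-!
# Module INIT (MP_6ed97a_co): at the start all edges of the stack are inside the parts
-/

namespace Pool.Agent.H63.PU

theorem pair_inside (hP : T_PAIR) {P l Q : List ℕ} (hnd : (P ++ l ++ Q).Nodup) {a b : ℕ}
    (ha : a ∈ l) (hb : b ∈ l) (h : [a, b] <:+: P ++ l ++ Q) : [a, b] <:+: l := by
  rw [List.append_assoc, List.nodup_append] at hnd
  obtain ⟨-, hnd2, hd1⟩ := hnd
  rw [List.nodup_append] at hnd2
  obtain ⟨-, -, hd2⟩ := hnd2
  rw [List.append_assoc] at h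
  rcases (hP.1 a b P (l ++ Q)).1 h with h | h | ⟨h, -⟩
  · have : a ∈ P := h.subset (by simp)
    exact absurd rfl (hd1 a this a (by simp [ha]))
  · rcases (hP.1 a b l Q).1 h with h | h | ⟨-, h⟩
    · exact h
    · have : a ∈ Q := h.subset (by simp)
      exact absurd rfl (hd2 a ha a this)
    · have : b ∈ Q := List.mem_of_mem_head? h
      exact absurd rfl (hd2 b hb b this)
  · have : a ∈ P := List.mem_of_getLast? h
    exact absurd rfl (hd1 a this a (by simp [ha]))

theorem init (hP : T_PAIR) : T_INIT := by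
  intro n a val R hp hR v hv
  obtain ⟨hv1, hflat, hcl, hit⟩ := hR
  have hva : v ∈ a := by
    rcases hv with h | h <;> exact h.subset (by simp)
  rw [← hflat, List.mem_flatten] at hva
  obtain ⟨l, hl, hvl⟩ := hva
  rw [List.mem_map] at hl
  obtain ⟨x, hx, rfl⟩ := hl
  have hnx : nx n v ∈ x.2 := (hcl x hx v hv).1 hvl
  obtain ⟨R₁, R₂, rfl⟩ := List.append_of_mem hx
  have ha : a = (R₁.map Prod.snd).flatten ++ x.2 ++ (R₂.map Prod.snd).flatten := by
    rw [← hflat]
    simp [List.append_assoc]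
  have hnd : ((R₁.map Prod.snd).flatten ++ x.2 ++ (R₂.map Prod.snd).flatten).Nodup := by
    rw [← ha]
    exact hp.nodup_iff.2 (List.nodup_range')
  refine ⟨x, by simp, ?_⟩
  rcases hv with h | h
  · left
    rw [ha] at h
    exact pair_inside hP hnd hvl hnx h
  · right
    rw [ha] at h
    exact pair_inside hP hnd hnx hvl h

end Pool.Agent.H63.PU
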