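import Pool.Agent.H2.PU.PHI

/-!
# Module PHI0 (MP_6ed97a_co): easy bounds for the potential
-/

namespace Pool.Agent.H63.PU

theorem iso_sub (n : ℕ) (p : ℕ → Prop) : (iso n p).card ≤ (missing n p).card := by
  classical
  apply Finset.card_le_card
  intro v hv
  simp only [iso, missing, Finset.mem_filter] at hv ⊢
  exact ⟨hv.1, hv.2.1⟩

theorem phi0 (hM : T_PHIM) : T_PHI0 := by
  classical
  intro W n p hW hn
  have h1 := iso_sub n p
  have h2 : (W.F : ℤ) ≤ W.B := by exact_mod_cast hW.FB
  have h3 : ((iso n p).card : ℤ) ≤ (missing n p).card := by exact_mod_cast h1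
  have h4 : (0 : ℤ) ≤ (iso n p).card := by positivity
  have h5 : (0 : ℤ) ≤ (missing n p).card := by positivity
  have h6 : (0 : ℤ) ≤ W.F := by positivity
  refine ⟨?_, ?_, ?_⟩
  · unfold phi
    nlinarith
  · have h := hM W n (fun _ => False) p hW (fun v hv => hv.elim)
    refine le_trans h ?_
    have e1 : missing n (fun _ => False) = Finset.Icc 1 n := by
      ext v; simp [missing]
    have e2 : iso n (fun _ => False) = Finset.Icc 1 n := by
      ext v; simp [iso]
    unfold phi
    rw [e1, e2, Nat.card_Icc]
    push_cast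
    linarith
  · unfold phi
    nlinarith

end Pool.Agent.H63.PU
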