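import Pool.Agent.H12.PU.QHI

/-!
# Module QLO (MP_6ed97a_co): queries of type `lo`
-/

namespace Pool.Agent.H63.PU

open Pool.Agent.H63.PU Pool.Agent.H12.PU

theorem exclHi_spec {is : List Item} : ∀ {js : List Item}, exclHi is js = true →
    ∀ {k lo hi}, Item.tok k lo hi ∈ js → hi ≠ 0 → hasLo hi is = true
  | [], _, _, _, _, h, _ => by simp at h
  | .gap :: l, he, k, lo, hi, h, hlo => by
    simp only [List.mem_cons, reduceCtorEq, false_or] at h
    exact exclHi_spec (js := l) (by simpa [exclHi] using he) h hlo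
  | .tok k' lo' hi' :: l, he, k, lo, hi, h, hlo => by
    simp only [exclHi, Bool.and_eq_true, Bool.or_eq_true] at he
    simp only [List.mem_cons] at h
    rcases h with h | h
    · injection h with h1 h2 h3
      subst h3
      rcases he.1 with h4 | h4
      · exact absurd (Nat.eq_of_beq_eq_true h4) hlo
      · exact h4
    · exact exclHi_spec (js := l) he.2 h hlo

theorem hasLo_spec {e : ℕ} : ∀ {js : List Item}, hasLo e js = true →
    ∃ k hi, Item.tok k e hi ∈ js
  | [], h => by simp [hasLo] at h
  | .gap :: l, h => by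
    obtain ⟨k, lo, h'⟩ := hasLo_spec (js := l) (by simpa [hasLo] using h)
    exact ⟨k, lo, List.mem_cons_of_mem _ h'⟩
  | .tok k' lo' hi' :: l, h => by
    simp only [hasLo, Bool.or_eq_true] at h
    rcases h with h | h
    · have h' := Nat.eq_of_beq_eq_true h
      subst h'
      exact ⟨k', hi', by simp⟩
    · obtain ⟨k, lo, h'⟩ := hasLo_spec (js := l) h
      exact ⟨k, lo, List.mem_cons_of_mem _ h'⟩

/-- the value above a lower label lies in the token -/
theorem tok_lo_mem {n : ℕ} {val : ℕ → ℕ} {k : Kd} {lo hi : ℕ} {l : List ℕ}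
    (h : Tok n val k lo hi l) (hlo : lo ≠ 0) : nx n (val lo) ∈ l := by
  cases k
  · obtain ⟨v, hv, ha, -⟩ := h
    rw [hv, ← ha hlo]
    simp
  · obtain ⟨-, ha, -⟩ := h
    exact List.mem_of_mem_head? (ha hlo)
  · obtain ⟨-, ha, -⟩ := h
    exact List.mem_of_getLast? (ha hlo)

theorem qlo (hOUT : T_OUT) (hLOC : T_LOCHI) : T_QLO := by
  intro n a i is L hn hp hreal hans
  obtain ⟨val, R, hRis, hR⟩ := hreal
  obtain ⟨hv1, hflat, hcl, hit⟩ := hR
  -- the token at index `i`
  have hex : ∃ k hi, is[i]? = some (Item.tok k 0 hi) ∧ exclHi is is = true ∧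
      L = locHi (fresh is) (is.set i (Item.tok k (fresh is) hi)) := by
    unfold answers at hans
    simp only at hans
    split at hans
    · rename_i k hi heq
      cases hx : exclHi is is
      · rw [hx] at hans
        simp at hans
      · rw [hx] at hans
        simp only [cond_true, Option.some.injEq] at hans
        exact ⟨k, hi, heq, rfl, hans.symm⟩
    · simp at hans
  obtain ⟨k, hi, hi0, hexcl, rfl⟩ := hex
  rw [← hRis, List.getElem?_map] at hi0
  rw [Option.map_eq_some_iff] at hi0
  obtain ⟨⟨it, lX⟩, hRi, hit0⟩ := hi0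
  simp only at hit0
  subst hit0
  obtain ⟨hilt, hRi'⟩ := List.getElem?_eq_some_iff.1 hRi
  obtain ⟨R₁, R₂, hRR, hlen⟩ : ∃ R₁ R₂, R = R₁ ++ (Item.tok k 0 hi, lX) :: R₂ ∧ R₁.length = i := by
    refine ⟨R.take i, R.drop (i + 1), ?_, ?_⟩
    · conv_lhs => rw [← List.take_append_drop i R]
      rw [List.drop_eq_getElem_cons hilt, hRi']
    · rw [List.length_take]
      omega
  have hx : (Item.tok k 0 hi, lX) ∈ R := by
    rw [hRR]; simp
  set P : List ℕ := (R₁.map Prod.snd).flatten with hP
  set Q : List ℕ := (R₂.map Prod.snd).flatten with hQ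
  have ha : a = P ++ lX ++ Q := by
    rw [← hflat, hRR]
    simp [hP, hQ, List.append_assoc]
  obtain ⟨-, ⟨y, hy1, hyn, hyX, hyE, hyT⟩⟩ :=
    hOUT n a val k 0 hi P lX Q hn ha hp (hcl _ hx) (hit _ hx)
  set N : ℕ := fresh is with hN
  have hN1 : 1 ≤ N := fresh_pos is
  set val' : ℕ → ℕ := Function.update val N y with hval'
  have hval_lt : ∀ m, m < N → val' m = val m := fun m hm => by
    rw [hval', Function.update_of_ne (by omega)]
  have hvalN : val' N = y := by rw [hval', Function.update_self]
  have hlabel : ∀ k' lo' hi' l', (Item.tok k' lo' hi', l') ∈ R → lo' < N ∧ hi' < N := by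
    intro k' lo' hi' l' h
    apply lt_fresh (k := k')
    rw [← hRis]
    exact List.mem_map.2 ⟨_, h, rfl⟩
  have hTX : Tok n val' k N hi lX := by
    apply hyT val' N hvalN
    intro _
    exact hval_lt hi (hlabel _ _ _ _ hx).2
  -- the new parts
  set R' : List (Item × List ℕ) := R₁ ++ (Item.tok k N hi, lX) :: R₂ with hR'
  have hR'is : R'.map Prod.fst = is.set i (Item.tok k N hi) := by
    rw [← hRis, hRR, hR']
    simp only [List.map_append, List.map_cons]
    rw [List.set_append_right _ _ (by simp [hlen])]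
    simp [hlen]
  have hRW : RealW n a val' R' := by
    refine ⟨?_, ?_, ?_, ?_⟩
    · intro m
      by_cases hm : m = N
      · rw [hm, hvalN]; exact ⟨hy1, hyn⟩
      · rw [hval', Function.update_of_ne hm]; exact hv1 m
    · rw [ha, hR']
      simp [hP, hQ, List.append_assoc]
    · intro x hx'
      rw [hR'] at hx'
      simp only [List.mem_append, List.mem_cons] at hx'
      rcases hx' with h | rfl | h
      · exact hcl x (by rw [hRR]; simp [h])
      · exact hcl (Item.tok k 0 hi, lX) hx
      · exact hcl x (by rw [hRR]; simp [h])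
    · intro x hx'
      rw [hR'] at hx'
      simp only [List.mem_append, List.mem_cons] at hx'
      have key : x ∈ R → ItemR n val' x.1 x.2 := fun hxR => by
        refine itemR_congr (hit x hxR) ?_
        intro k' lo' hi' hx1
        have := hlabel k' lo' hi' x.2 (by rw [← hx1]; exact hxR)
        exact ⟨hval_lt _ this.1, hval_lt _ this.2⟩
      rcases hx' with h | rfl | h
      · exact key (by rw [hRR]; simp [h])
      · exact hTX
      · exact key (by rw [hRR]; simp [h])
  have hmain := hLOC n val' N R' a hn hp hRW (by omega) (by rw [hvalN]; exact hyE) ?_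
  · rw [hR'is] at hmain
    exact hmain
  · intro k' lo' hi' l' hmem hhi' heq
    rw [hvalN] at heq
    -- `hi'` is a label of `is`
    obtain ⟨k₂, lo₂, l₂, hmem₂⟩ : ∃ k₂ lo₂ l₂, (Item.tok k₂ lo₂ hi', l₂) ∈ R := by
      rw [hR'] at hmem
      simp only [List.mem_append, List.mem_cons] at hmem
      rcases hmem with h | h | h
      · exact ⟨k', lo', l', by rw [hRR]; simp [h]⟩
      · injection h with h1 h2
        injection h1 with h3 h4 h5
        subst h5
        exact ⟨k, 0, lX, hx⟩
      · exact ⟨k', lo', l', by rw [hRR]; simp [h]⟩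
    have hlt := (hlabel _ _ _ _ hmem₂).2
    rw [hval_lt _ hlt] at heq
    have hin : Item.tok k₂ lo₂ hi' ∈ is := by
      rw [← hRis]
      exact List.mem_map.2 ⟨_, hmem₂, rfl⟩
    obtain ⟨kw, hiw', hw⟩ := hasLo_spec (exclHi_spec hexcl hin hhi')
    rw [← hRis, List.mem_map] at hw
    obtain ⟨⟨iw, lw⟩, hwR, hiw⟩ := hw
    simp only at hiw
    subst hiw
    have hyw : nx n y ∈ lw := by
      rw [← heq]
      exact tok_lo_mem (hit _ hwR) hhi'
    have hnd : (P ++ lX ++ Q).Nodup := by
      rw [← ha]
      exact hp.nodup_iff.2 (List.nodup_range')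
    rw [List.append_assoc, List.nodup_append] at hnd
    obtain ⟨-, hnd2, hdis1⟩ := hnd
    rw [List.nodup_append] at hnd2
    obtain ⟨-, -, hdis2⟩ := hnd2
    rw [hRR] at hwR
    simp only [List.mem_append, List.mem_cons] at hwR
    rcases hwR with h | h | h
    · have : nx n y ∈ P := by
        rw [hP, List.mem_flatten]
        exact ⟨lw, List.mem_map.2 ⟨_, h, rfl⟩, hyw⟩
      exact hdis1 _ this _ (by simp [hyX]) rfl
    · injection h with h1 h2
      injection h1 with h3 h4 h5
      exact hhi' h4
    · have : nx n y ∈ Q := by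
        rw [hQ, List.mem_flatten]
        exact ⟨lw, List.mem_map.2 ⟨_, h, rfl⟩, hyw⟩
      exact hdis2 _ hyX _ this rfl

end Pool.Agent.H63.PU
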