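import Pool.Agent.H2.PU.PHI
import Pool.Agent.H2.PU.RUN
import Pool.Agent.H5.PU.Flip
import Pool.Agent.H12.PU.LOCLO
import Pool.Agent.H12.PU.QHI
import Pool.Agent.H50.PU.PAIR
import Pool.Agent.H50.PU.CONTRA
import Pool.Agent.H50.PU.CYC
import Pool.Agent.H50.PU.EMB
import Pool.Agent.H53.PU.EdgeRoot
import Pool.Agent.H53.PU.Main
import Pool.Agent.H53.PU.TopB
import Pool.Agent.H56.PU.EXT
import Pool.Agent.H56.PU.PUT
import Pool.Agent.H69.PU.END
import Pool.Agent.H69.PU.OUT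
import Pool.Agent.H69.PU.LOCHI
import Pool.Agent.H77.PU.CHK
import Pool.Agent.H77.PU.RED
import Pool.Agent.H77.PU.FIN
import Pool.Agent.H63.PU.INIT
import Pool.Agent.H63.PU.PHI0
import Pool.Agent.H63.PU.QLO

/-!
# The upper bound for the pancake number from a certificate: all modules together
-/

namespace Pool.Agent.H63.PU

open Pool.Agent.H53.PK

theorem m_edge : T_EDGE := pu_edge Pool.Agent.H50.PU.pair
theorem m_ext : T_EXT := Pool.Agent.H56.PU.EXT.ext m_edge Pool.Agent.H50.PU.nxm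
theorem m_end : T_END := Pool.Agent.H69.PU.end' Pool.Agent.H50.PU.nxm
theorem m_out : T_OUT := Pool.Agent.H69.PU.out Pool.Agent.H50.PU.nxm Pool.Agent.H50.PU.pair
theorem m_put : T_PUT := Pool.Agent.H56.PU.PUT.put' m_edge Pool.Agent.H2.PU.phim Pool.Agent.H2.PU.phij
theorem m_flip : T_FLIP := Pool.Agent.H5.PU.flip m_put m_edge
theorem m_run : T_RUN := Pool.Agent.H2.PU.run' m_flip Pool.Agent.H2.PU.phim
theorem m_loclo : T_LOCLO := Pool.Agent.H12.PU.loclo m_ext m_end Pool.Agent.H50.PU.nxm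
theorem m_lochi : T_LOCHI := Pool.Agent.H69.PU.lochi m_ext m_end
theorem m_qhi : T_QHI := Pool.Agent.H12.PU.qhi m_out m_loclo
theorem m_topb : T_TOPB := pu_topb m_ext
theorem m_contra : T_CONTRA := Pool.Agent.H50.PU.contraM Pool.Agent.H50.PU.pair
theorem m_root : T_ROOT := pu_root m_ext m_edge
theorem m_fin : T_FIN := Pool.Agent.H77.PU.FIN.fin m_root m_out
theorem m_qlo : T_QLO := qlo m_out m_lochi
theorem m_init : T_INIT := init Pool.Agent.H50.PU.pair
theorem m_phi0 : T_PHI0 := phi0 Pool.Agent.H2.PU.phim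
theorem m_chk : T_CHK := Pool.Agent.H77.PU.CHK.chk m_run m_init Pool.Agent.H2.PU.phim m_topb m_qhi
  m_qlo Pool.Agent.H50.PU.Emb.embM m_contra Pool.Agent.H50.PU.Cyc.cycM
theorem m_red : T_RED := Pool.Agent.H77.PU.RED.red m_ext m_end m_edge m_run m_init
  Pool.Agent.H2.PU.phim
theorem m_all : T_ALL := Pool.Agent.H2.PU.all m_red m_fin m_root m_phi0
theorem m_main : T_MAIN := pu_main m_all

end Pool.Agent.H63.PU
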