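import Pool.Agent.H63.PU.Main

/-!
# Reflection of the values; certificates with reflected references
-/

namespace Pool.Agent.H63.PU.Mir

open Pool.Agent.H53.PK Pool.Agent.H63.PU

/-- reflection of the values -/
def mu (n v : ℕ) : ℕ := n + 1 - v

/-- reflection of the edges -/
def nu (n v : ℕ) : ℕ := mu n (nx n v)

lemma mu_range {n v : ℕ} (h1 : 1 ≤ v) (h2 : v ≤ n) : 1 ≤ mu n v ∧ mu n v ≤ n := by
  unfold mu; omega

lemma mu_mu {n v : ℕ} (h1 : 1 ≤ v) (h2 : v ≤ n) : mu n (mu n v) = v := by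
  unfold mu; omega

lemma nx_range {n v : ℕ} (h1 : 1 ≤ v) (h2 : v ≤ n) : 1 ≤ nx n v ∧ nx n v ≤ n := by
  unfold nx; split_ifs <;> omega

lemma nu_range {n v : ℕ} (h1 : 1 ≤ v) (h2 : v ≤ n) : 1 ≤ nu n v ∧ nu n v ≤ n :=
  mu_range (nx_range h1 h2).1 (nx_range h1 h2).2

lemma nx_nu {n v : ℕ} (h1 : 1 ≤ v) (h2 : v ≤ n) : nx n (nu n v) = mu n v := by
  unfold nu nx mu; split_ifs <;> omega

lemma nu_nu {n v : ℕ} (h1 : 1 ≤ v) (h2 : v ≤ n) : nu n (nu n v) = v := by
  rw [nu, nx_nu h1 h2, mu_mu h1 h2]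

/-- all values are in the range -/
def Rg (n : ℕ) (l : List ℕ) : Prop := ∀ v ∈ l, 1 ≤ v ∧ v ≤ n

lemma rg_perm {n : ℕ} {a : List ℕ} (h : a.Perm (List.range' 1 n)) : Rg n a := by
  intro v hv
  have := h.mem_iff.1 hv
  simp only [List.mem_range'_1] at this
  omega

lemma rg_map {n : ℕ} {l : List ℕ} (h : Rg n l) : Rg n (l.map (mu n)) := by
  intro v hv
  obtain ⟨w, hw, rfl⟩ := List.mem_map.1 hv
  exact mu_range (h w hw).1 (h w hw).2

lemma map_map {n : ℕ} {l : List ℕ} (h : Rg n l) : (l.map (mu n)).map (mu n) = l := by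
  rw [List.map_map]
  conv_rhs => rw [← List.map_id l]
  apply List.map_congr_left
  intro v hv
  exact mu_mu (h v hv).1 (h v hv).2

lemma mem_map {n v : ℕ} {l : List ℕ} (h : Rg n l) (h1 : 1 ≤ v) (h2 : v ≤ n) :
    v ∈ l.map (mu n) ↔ mu n v ∈ l := by
  constructor
  · intro hv
    obtain ⟨w, hw, rfl⟩ := List.mem_map.1 hv
    rw [mu_mu (h w hw).1 (h w hw).2]
    exact hw
  · intro hv
    exact List.mem_map.2 ⟨_, hv, mu_mu h1 h2⟩

lemma inf_map {n a b : ℕ} {l : List ℕ} (h : Rg n l) (ha1 : 1 ≤ a) (ha2 : a ≤ n) (hb1 : 1 ≤ b)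
    (hb2 : b ≤ n) : [a, b] <:+: l.map (mu n) ↔ [mu n a, mu n b] <:+: l := by
  constructor
  · intro hi
    have := hi.map (mu n)
    rw [map_map h] at this
    simpa using this
  · intro hi
    have := hi.map (mu n)
    simp only [List.map_cons, List.map_nil, mu_mu ha1 ha2, mu_mu hb1 hb2] at this
    exact this

lemma edge_map {n v : ℕ} {l : List ℕ} (h : Rg n l) (h1 : 1 ≤ v) (h2 : v ≤ n) :
    Edge n (l.map (mu n)) v ↔ Edge n l (nu n v) := by
  have hx := nx_range h1 h2
  unfold Edge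
  rw [inf_map h h1 h2 hx.1 hx.2, inf_map h hx.1 hx.2 h1 h2, nx_nu h1 h2]
  exact or_comm

lemma edge_rg {n v : ℕ} {l : List ℕ} (h : Rg n l) (he : Edge n l v) : 1 ≤ v ∧ v ≤ n := by
  rcases he with he | he
  · exact h v (he.subset (by simp))
  · exact h v (he.subset (by simp))

lemma missing_map {n : ℕ} {l : List ℕ} (h : Rg n l) :
    (missing n (Edge n (l.map (mu n)))).card = (missing n (Edge n l)).card := by
  refine Finset.card_nbij' (nu n) (nu n) ?_ ?_ ?_ ?_
  · intro v hv
    simp only [missing, Finset.coe_filter, Finset.mem_Icc, Set.mem_ofPred_eq] at hv ⊢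
    refine ⟨nu_range hv.1.1 hv.1.2, ?_⟩
    rw [← edge_map h hv.1.1 hv.1.2]
    exact hv.2
  · intro v hv
    simp only [missing, Finset.coe_filter, Finset.mem_Icc, Set.mem_ofPred_eq] at hv ⊢
    have hr := nu_range hv.1.1 hv.1.2
    refine ⟨hr, ?_⟩
    rw [edge_map h hr.1 hr.2, nu_nu hv.1.1 hv.1.2]
    exact hv.2
  · intro v hv
    simp only [missing, Finset.coe_filter, Finset.mem_Icc, Set.mem_ofPred_eq] at hv
    exact nu_nu hv.1.1 hv.1.2
  · intro v hv
    simp only [missing, Finset.coe_filter, Finset.mem_Icc, Set.mem_ofPred_eq] at hv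
    exact nu_nu hv.1.1 hv.1.2

lemma nx_nu2 {n v : ℕ} (h1 : 1 ≤ v) (h2 : v ≤ n) : nx n (nu n (nx n v)) = nu n v := by
  rw [nx_nu (nx_range h1 h2).1 (nx_range h1 h2).2]
  rfl

lemma rho {n v : ℕ} (h1 : 1 ≤ v) (h2 : v ≤ n) : nu n (nx n (nu n (nx n v))) = v := by
  rw [nx_nu2 h1 h2, nu_nu h1 h2]

lemma iso_map {n : ℕ} {l : List ℕ} (h : Rg n l) :
    (iso n (Edge n (l.map (mu n)))).card = (iso n (Edge n l)).card := by
  refine Finset.card_nbij' (fun v => nu n (nx n v)) (fun v => nu n (nx n v)) ?_ ?_ ?_ ?_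
  · intro v hv
    simp only [iso, Finset.coe_filter, Finset.mem_Icc, Set.mem_ofPred_eq] at hv ⊢
    have hx := nx_range hv.1.1 hv.1.2
    refine ⟨nu_range hx.1 hx.2, ?_, ?_⟩
    · rw [← edge_map h hx.1 hx.2]
      exact hv.2.2
    · rw [nx_nu2 hv.1.1 hv.1.2, ← edge_map h hv.1.1 hv.1.2]
      exact hv.2.1
  · intro v hv
    simp only [iso, Finset.coe_filter, Finset.mem_Icc, Set.mem_ofPred_eq] at hv ⊢
    have hx := nx_range hv.1.1 hv.1.2
    have hr := nu_range hx.1 hx.2
    refine ⟨hr, ?_, ?_⟩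
    · rw [edge_map h hr.1 hr.2, nu_nu hx.1 hx.2]
      exact hv.2.2
    · rw [nx_nu2 hv.1.1 hv.1.2, edge_map h (nu_range hv.1.1 hv.1.2).1 (nu_range hv.1.1 hv.1.2).2,
        nu_nu hv.1.1 hv.1.2]
      exact hv.2.1
  · intro v hv
    simp only [iso, Finset.coe_filter, Finset.mem_Icc, Set.mem_ofPred_eq] at hv
    exact rho hv.1.1 hv.1.2
  · intro v hv
    simp only [iso, Finset.coe_filter, Finset.mem_Icc, Set.mem_ofPred_eq] at hv
    exact rho hv.1.1 hv.1.2

lemma phi_map (W : Wts) {n : ℕ} {l : List ℕ} (h : Rg n l) :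
    phi W n (Edge n (l.map (mu n))) = phi W n (Edge n l) := by
  unfold phi
  rw [missing_map h, iso_map h]

lemma pr_map (k : ℕ) (f : ℕ → ℕ) (l : List ℕ) :
    prefixReversal k (l.map f) = (prefixReversal k l).map f := by
  simp [prefixReversal, List.map_take, List.map_drop]

lemma fold_map (f : ℕ → ℕ) : ∀ (ks : List ℕ) (l : List ℕ),
    ks.foldl (fun s k => prefixReversal k s) (l.map f) =
      (ks.foldl (fun s k => prefixReversal k s) l).map f
  | [], l => rfl
  | k :: ks, l => by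
    simp only [List.foldl_cons]
    rw [pr_map, fold_map f ks]

lemma fold_rg {n : ℕ} : ∀ (ks : List ℕ) (l : List ℕ), Rg n l →
    Rg n (ks.foldl (fun s k => prefixReversal k s) l)
  | [], l, h => h
  | k :: ks, l, h => by
    simp only [List.foldl_cons]
    apply fold_rg ks
    intro v hv
    apply h
    simp only [prefixReversal, List.mem_append, List.mem_reverse] at hv
    rcases hv with hv | hv
    · exact List.mem_of_mem_take hv
    · exact List.mem_of_mem_drop hv

lemma good_map (W : Wts) {n : ℕ} {a : List ℕ} (h : Rg n a) (hg : Good W n (a.map (mu n))) :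
    Good W n a := by
  obtain ⟨m, b, ⟨ks, h1, h2, h3⟩, h4, h5⟩ := hg
  have hb : Rg n b := by
    rw [← h3]
    exact fold_rg ks _ (rg_map h)
  refine ⟨m, b.map (mu n), ⟨ks, h1, h2, ?_⟩, ?_, ?_⟩
  · have := fold_map (mu n) ks (a.map (mu n))
    rw [h3, map_map h] at this
    exact this
  · rw [phi_map W hb, ← phi_map W h]
    exact h4
  · rw [phi_map W hb, ← phi_map W h]
    exact h5

lemma perm_map {n : ℕ} {a : List ℕ} (h : a.Perm (List.range' 1 n)) :
    (a.map (mu n)).Perm (List.range' 1 n) := by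
  have hr := rg_perm h
  have hnd : a.Nodup := h.nodup_iff.2 List.nodup_range'
  have hnd2 : (a.map (mu n)).Nodup := by
    refine List.Nodup.map_on ?_ hnd
    intro x hx y hy hxy
    have := congrArg (mu n) hxy
    rwa [mu_mu (hr x hx).1 (hr x hx).2, mu_mu (hr y hy).1 (hr y hy).2] at this
  refine (List.perm_ext_iff_of_nodup hnd2 List.nodup_range').2 ?_
  intro v
  constructor
  · intro hv
    have := rg_map hr v hv
    simp only [List.mem_range'_1]
    omega
  · intro hv
    simp only [List.mem_range'_1] at hv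
    rw [mem_map hr hv.1 (by omega), h.mem_iff]
    have := mu_range (n := n) hv.1 (by omega)
    simp only [List.mem_range'_1]
    omega

/-- reflected item -/
def mirI : Item → Item
  | .gap => .gap
  | .tok k lo hi => .tok k.flip hi lo

lemma up_map {n : ℕ} {l : List ℕ} (hr : Rg n l) (h : Up n l) : Up n (l.map (mu n)).reverse := by
  refine ⟨?_, by simpa using h.2⟩
  rw [List.isChain_reverse, List.isChain_map]
  have h1 := h.1
  have : ∀ (l : List ℕ), Rg n l → l.IsChain (fun a b => b = nx n a) →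
      l.IsChain (fun a b => mu n a = nx n (mu n b)) := by
    intro l
    induction l with
    | nil => intro _ _; exact List.isChain_nil
    | cons x l ih =>
      intro hr hc
      cases l with
      | nil => exact List.isChain_singleton _
      | cons y l =>
        rw [List.isChain_cons_cons] at hc ⊢
        refine ⟨?_, ih (fun v hv => hr v (List.mem_cons_of_mem _ hv)) hc.2⟩
        have hx := hr x (by simp)
        rw [hc.1]
        exact (nx_nu hx.1 hx.2).symm
  exact this l hr h1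

lemma item_map {n : ℕ} {val : ℕ → ℕ} (hv : ∀ e, 1 ≤ val e ∧ val e ≤ n) {it : Item} {l : List ℕ}
    (hr : Rg n l) (h : ItemR n val it l) :
    ItemR n (fun e => nu n (val e)) (mirI it) (l.map (mu n)) := by
  cases it with
  | gap => trivial
  | tok k lo hi =>
    cases k with
    | s =>
      obtain ⟨v, rfl, h1, h2⟩ := h
      refine ⟨mu n v, rfl, fun hh => ?_, fun hl => ?_⟩
      · rw [nx_nu (hv hi).1 (hv hi).2, h2 hh]
      · rw [h1 hl]
        rfl
    | p =>
      obtain ⟨h0, h1, h2⟩ := h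
      refine ⟨up_map hr h0, fun hh => ?_, fun hl => ?_⟩
      · rw [List.getLast?_map, h2 hh, nx_nu (hv hi).1 (hv hi).2]
        rfl
      · rw [List.head?_map, h1 hl]
        rfl
    | m =>
      obtain ⟨h0, h1, h2⟩ := h
      refine ⟨?_, fun hh => ?_, fun hl => ?_⟩
      · have := up_map (l := l.reverse) (fun v hv => hr v (by simpa using hv)) h0
        rwa [List.map_reverse, List.reverse_reverse] at this
      · rw [List.head?_map, h2 hh, nx_nu (hv hi).1 (hv hi).2]
        rfl
      · rw [List.getLast?_map, h1 hl]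
        rfl

lemma real_map {n : ℕ} {a : List ℕ} {is : List Item} (ha : a.Perm (List.range' 1 n))
    (h : Real n a is) : Real n (a.map (mu n)) (is.map mirI) := by
  obtain ⟨val, R, h1, h2⟩ := h
  have hra := rg_perm ha
  have hrx : ∀ x ∈ R, Rg n x.2 := by
    intro x hx v hv
    apply hra
    rw [← h2.flat]
    exact List.mem_flatten.2 ⟨x.2, List.mem_map.2 ⟨x, hx, rfl⟩, hv⟩
  refine ⟨fun e => nu n (val e), R.map (fun x => (mirI x.1, x.2.map (mu n))), ?_, ?_, ?_, ?_, ?_⟩
  · rw [← h1]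
    simp
  · intro e
    exact nu_range (h2.val1 e).1 (h2.val1 e).2
  · rw [← h2.flat, List.map_flatten, List.map_map, List.map_map]
    rfl
  · intro x hx
    obtain ⟨y, hy, rfl⟩ := List.mem_map.1 hx
    intro v hv
    have hvr := edge_rg (rg_map hra) hv
    have hxr := nx_range hvr.1 hvr.2
    rw [edge_map hra hvr.1 hvr.2] at hv
    have := h2.closed y hy _ hv
    rw [nx_nu hvr.1 hvr.2] at this
    simp only
    rw [mem_map (hrx y hy) hvr.1 hvr.2, mem_map (hrx y hy) hxr.1 hxr.2]
    exact this.symm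
  · intro x hx
    obtain ⟨y, hy, rfl⟩ := List.mem_map.1 hx
    exact item_map h2.val1 (hrx y hy) (h2.item y hy)

lemma mirI_mirI (it : Item) : mirI (mirI it) = it := by
  cases it with
  | gap => rfl
  | tok k lo hi => cases k <;> rfl

theorem solved_mir {W : Wts} {is : List Item} (h : Solved W is) : Solved W (is.map mirI) := by
  intro n a hn ha hc hR
  have hra := rg_perm ha
  have h1 := real_map ha hR
  rw [List.map_map] at h1
  have h2 : is.map (mirI ∘ mirI) = is := by
    conv_rhs => rw [← List.map_id is]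
    apply List.map_congr_left
    intro x _
    exact mirI_mirI x
  rw [h2] at h1
  refine good_map W hra (h n (a.map (mu n)) hn (perm_map ha) ?_ h1)
  rw [missing_map hra]
  exact hc

end Pool.Agent.H63.PU.Mir
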